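import Pool.Agent.MWGX.StmtsA

/-!
# MWGX: row EI1 (helper13)
-/

set_option autoImplicit false

namespace Pool.Agent.MWGX.H13

open Pool.Agent.Helper14_MV Pool.Agent.Helper2_MV
open Pool.Agent.MWGR (X It Kaba F1 Dm Ec Es Ea Al0 Rh FE)

theorem xpre (n : ℕ) (h : 1 ≤ n) (l : List ℕ) : X (n - 1) ++ 0 :: l = X n ++ l := by
  obtain ⟨k, rfl⟩ : ∃ k, n = k + 1 := ⟨n - 1, by omega⟩
  have : X (k + 1) = X k ++ [0] := by
    unfold X
    rw [List.replicate_succ', ]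
  rw [this, Nat.add_sub_cancel]
  simp

theorem xsuc (n : ℕ) (l : List ℕ) : 0 :: (X n ++ l) = X (n + 1) ++ l := by
  simp [List.replicate_succ]

theorem ei1 (h : CrxStmt) : Ei1Stmt := by
  intro n θ hn hI hD hK
  have h1 : RR θ ((X n ++ [1]) ++ (X (n + 1) ++ 2 :: (X n ++ [3, 1, 4, 2, 5, 1])))
      ((X n ++ [1]) ++ (X n ++ 2 :: (X (n + 1) ++ [3, 1, 4, 2, 5, 1]))) :=
    h n θ hn hI 1 hD 2 (n + 1) n n (n + 1) (X n ++ [1]) [3, 1, 4, 2, 5, 1] (by omega) hn hn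
      (by omega) (Nat.ModEq.refl _) (by rw [Nat.add_comm]) (by simp)
  have h2 := hI (X (n - 1)) [1] [2] (X n ++ [3, 1, 4, 2, 5, 1]) 0 (by
    intro a ha
    have : a = 1 ∨ a = 2 := by simpa using ha
    rcases this with rfl | rfl <;>
      simp [List.count_append, List.count_cons, List.count_replicate])
  have h4 := hI (X (n - 1)) [2] [1] (X n ++ [3, 1, 4, 2, 5, 1]) 0 (by
    intro a ha
    have : a = 2 ∨ a = 1 := by simpa using ha
    rcases this with rfl | rfl <;>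
      simp [List.count_append, List.count_cons, List.count_replicate])
  rw [xpre n hn, xpre n hn, xsuc] at h2 h4
  have h3 : RR θ (X n ++ ([1] ++ ([2] ++ (X (n + 1) ++ [3, 1, 4, 2, 5, 1]))))
      (X n ++ ([2] ++ ([1] ++ (X (n + 1) ++ [3, 1, 4, 2, 5, 1])))) := by
    have := RR.append (RR.refl (β := θ) (X n)) (RR.sub (fun i => if i = 0 then [1] else
      if i = 1 then [2] else if i = 2 then X (n + 1) ++ [3] else if i = 3 then [4] else [5]) hK)
    simpa using this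
  have h5 := (h n θ hn hI 1 hD 2 (n + 1) (n + (n - 1) * 1) n n [] (1 :: (X (n + 1) ++
    [3, 1, 4, 2, 5, 1])) (by omega) (by omega) hn hn (Nat.ModEq.refl _) (by
      have : n + 1 + (n + (n - 1) * 1) = n + n + n := by omega
      rw [this]
      simp [Nat.ModEq]) (by simp)).symm
  have e1 : X n ++ 1 :: (X (n + 1) ++ 2 :: (X n ++ [3, 1, 4, 2, 5, 1])) =
      (X n ++ [1]) ++ (X (n + 1) ++ 2 :: (X n ++ [3, 1, 4, 2, 5, 1])) := by simp
  have e2 : (X n ++ [1]) ++ (X n ++ 2 :: (X (n + 1) ++ [3, 1, 4, 2, 5, 1])) =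
      X n ++ ([1] ++ (List.replicate n 0 ++ ([2] ++ (X (n + 1) ++ [3, 1, 4, 2, 5, 1])))) := by
    simp
  have e3 : X n ++ ([2] ++ (List.replicate n 0 ++ ([1] ++ (X (n + 1) ++ [3, 1, 4, 2, 5, 1])))) =
      [] ++ (X n ++ 2 :: (X n ++ 1 :: (X (n + 1) ++ [3, 1, 4, 2, 5, 1]))) := by
    simp
  have e4 : [] ++ (X (n + 1) ++ 2 :: (X (n + (n - 1) * 1) ++ 1 :: (X (n + 1) ++
      [3, 1, 4, 2, 5, 1]))) = X (n + 1) ++ 2 :: (X (n + (n - 1) * 1) ++ 1 :: (X (n + 1) ++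
      [3, 1, 4, 2, 5, 1])) := by simp
  unfold Ea Ec
  rw [e1]
  rw [e2] at h1
  rw [e3] at h4
  rw [e4] at h5
  exact θ.trans h1 (θ.trans h2.symm (θ.trans h3 (θ.trans h4 h5)))

end Pool.Agent.MWGX.H13
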