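import Pool.Agent.MWGX.StmtsB

/-!
# MWGX: row MC1 (helper13)
-/

set_option autoImplicit false

namespace Pool.Agent.MWGX.H13

open Pool.Agent.Helper14_MV Pool.Agent.Helper2_MV
open Pool.Agent.MWK (pre)
open Pool.Agent.MWF (gaml)
open Pool.Agent.MWGN (nn Nm WC WT Tau Ns nl sg)
open Pool.Agent.MWGQ (pw Gn E0 A0 P0 bd kr krl Rs)
open Pool.Agent.MWGR (X It Kaba F1 Dm Ec Es Ea Al0 Rh FE)

theorem mem_ghc {g u : ℕ → List ℕ} {N d : ℕ} (h : d ∈ ghc g u N) :
    (∃ i < N, d ∈ g i) ∨ ∃ i ≤ N, d ∈ u i := by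
  unfold ghc at h
  rcases List.mem_append.1 h with h | h
  · obtain ⟨i, hi, hd⟩ := List.mem_flatMap.1 h
    rw [List.mem_range] at hi
    rcases List.mem_append.1 hd with hd | hd
    · exact Or.inr ⟨i, hi.le, hd⟩
    · exact Or.inl ⟨i, hi, hd⟩
  · exact Or.inr ⟨N, le_refl _, h⟩

theorem count_ghc {g u : ℕ → List ℕ} {N i d : ℕ} (hi : i ≤ N) :
    (u i).count d ≤ (ghc g u N).count d := by
  unfold ghc
  rw [List.count_append]
  rcases Nat.lt_or_ge i N with h | h
  · obtain ⟨l1, l2, hl⟩ := List.append_of_mem (List.mem_range.2 h)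
    rw [hl, List.flatMap_append, List.flatMap_cons]
    simp only [List.count_append]
    omega
  · have : i = N := by omega
    subst this
    omega

theorem count_ghc1 {g u : ℕ → List ℕ} {N i d : ℕ} (hi : i < N) (hd : d ∈ g i) :
    1 ≤ (ghc g u N).count d := by
  have : d ∈ ghc g u N := by
    unfold ghc
    exact List.mem_append_left _ (List.mem_flatMap.2 ⟨i, List.mem_range.2 hi,
      List.mem_append_right _ hd⟩)
  exact List.one_le_count_iff.2 this

theorem mc1 (h1 : Fg1Stmt) (h2 : CvgStmt) : Mc1Stmt := by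
  intro n δ hn τ m hτ o' f p q hK hc
  obtain ⟨g, u, H, e, hg, hu, -, -⟩ := h1 n hn τ m hτ f o'
  have e1 := e true
  rw [if_pos rfl] at e1
  have hw : p ++ (w0 n τ m true o').flatMap f ++ q = p ++ (gL n 1 (f 5) (f 0) (f 1) ++
      (f 2 ++ (f 0 ++ (ghc g u (m + 2) ++ (f 1 ++ (H ++ q)))))) := by
    rw [e1]
    simp only [List.append_assoc]
  generalize hW : p ++ (w0 n τ m true o').flatMap f ++ q = w at *
  have hgm : ∀ i < m + 2, ∀ d ∈ g i, d ∈ H ++ q := by
    intro i hi d hd
    obtain ⟨H1, H2, hH⟩ := hg i hi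
    rw [hH]
    simp [hd]
  have hcnt : ∀ d, w.count d = p.count d + ((gL n 1 (f 5) (f 0) (f 1)).count d +
      ((f 2).count d + ((f 0).count d + ((ghc g u (m + 2)).count d + ((f 1).count d +
        (H ++ q).count d))))) := by
    intro d
    rw [hw]
    simp only [List.count_append]
  have hE0 : ∀ d ∈ f 0, d ∈ gL n 1 (f 5) (f 0) (f 1) := by
    intro d hd
    unfold gL
    simp [hd]
  have hE1 : ∀ d ∈ f 1, d ∈ gL n 1 (f 5) (f 0) (f 1) := by
    intro d hd
    unfold gL
    simp [hd]
  obtain ⟨k, hk, -, hk2, -⟩ := h2 (N2 m) (m + 1) (m + 2) (by omega) (by omega) p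
    (gL n 1 (f 5) (f 0) (f 1)) (f 2) (f 0) (ghc g u (m + 2)) (f 1) (H ++ q) w hw
    (by
      intro d hd
      rw [hcnt]
      rcases mem_ghc hd with ⟨i, hi, hd⟩ | ⟨i, hi, hd⟩
      · have a1 := count_ghc1 (u := u) hi hd
        have a2 := List.one_le_count_iff.2 (hgm i hi d hd)
        omega
      · have a1 := hu i hi d hd
        have a2 := count_ghc (g := g) (u := u) (d := d) hi
        omega)
    (by
      intro d hd
      rw [hcnt]
      by_cases hA : d ∈ f 0
      · have a1 := List.one_le_count_iff.2 hA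
        have a2 := List.one_le_count_iff.2 (hE0 d hA)
        omega
      by_cases hB : d ∈ f 1
      · have a1 := List.one_le_count_iff.2 hB
        have a2 := List.one_le_count_iff.2 (hE1 d hB)
        omega
      have hZ : d ∈ f 5 := by
        have hd' : d ∈ pw n (f 5) ∨ d ∈ f 0 ∨ d ∈ pw (n + 1) (f 5) ∨ d ∈ f 1 ∨
            d ∈ pw n (f 5) := by
          unfold gL at hd
          simpa only [List.mem_append] using hd
        rcases hd' with h | h | h | h | h
        · exact mem_pw h
        · exact absurd h hA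
        · exact mem_pw h
        · exact absurd h hB
        · exact mem_pw h
      have a1 := List.one_le_count_iff.2 hZ
      have a2 : 2 ≤ (gL n 1 (f 5) (f 0) (f 1)).count d := by
        unfold gL
        simp only [List.count_append, count_pw]
        nlinarith
      omega)
    hE0 hE1 hK.1.c2 hc.1 hc.2 (m + 2) g u rfl hgm
    (by
      intro i hi d hd
      have a1 := hu i hi d hd
      have a2 := count_ghc (g := g) (u := u) (d := d) hi
      omega)
    (by intro h; omega) (by intro h; omega) (m + 2) (by omega)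
  omega

end Pool.Agent.MWGX.H13
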